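import Pool.Agent.Helper50.KP.Shadow2

/-!
# The circuit value problem is a projection of unknot recognition

For every circuit `C` of NAND gates with `m` gates and every input `x` there is an explicit diagram
`knot m C x` of a knot, with at most `1536 m²` crossings, which is a diagram of the unknot if and only if the
last gate has the value `true`; in this case the diagram can be changed to the round circle by planar
isotopies and removals of bigons only.  The shadow of the diagram depends only on the circuit, and the
over/under information at every crossing depends on at most one bit of the input.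

The definitions of diagrams and moves are in `Pool/Agent/Helper50/KP/Defs.lean`.  Diagrams are in Morse
position: the plane is read from left to right, a `cup` creates two neighbouring strands, a `cap` joins two
neighbouring strands, `X s` is a crossing.  The relation `Unknot` is generated by the planar isotopies `Pl`
and the Reidemeister moves `Rd`, in both directions.
-/

set_option autoImplicit false

namespace Pool.Agent.Results.MP_5a63b6_lc.CircuitValueToUnknot

open Pool.Agent.Helper50.KP

/-- The hook of a wire on the bands number `k` and `k + m + 1` (from above): a commutator if `a = true`; if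
`a = false` the wire is over at all crossings. -/
def hook (a : Bool) (k m : ℕ) : Prog :=
  List.replicate k (Ins.D true) ++ [Ins.D (!a)] ++ List.replicate m (Ins.D true) ++
    [Ins.D (!a), Ins.U true] ++ List.replicate m (Ins.U true) ++ [Ins.U (!a), Ins.D true] ++
    List.replicate m (Ins.D true) ++ [Ins.D true, Ins.U (!a)] ++ List.replicate m (Ins.U true) ++
    [Ins.U true] ++ List.replicate k (Ins.U true)

/-- The hooks of the wires of a gate (the bit of `hook`, and the numbers of two wires).  The gate `i` has
the wires `4 i`, `4 i + 1` (`b = true`, they are locked iff the value of the gate is `true`) and `4 i + 2`,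
`4 i + 3` (`b = false`, locked iff the value is `false`).  A wire with a hook on two locked wires is locked.
The wires of an input gate have a hook on the wires `4 m - 2`, `4 m - 1` of the last gate if the input bit
is `b`. -/
def hooks (m : ℕ) (x : ℕ → Bool) (b : Bool) : Gate → List (Bool × ℕ × ℕ)
  | .inp l => [(x l == b, 4 * m - 2, 4 * m - 1)]
  | .nand j k =>
    if b then [(true, 4 * j + 2, 4 * k + 3), (true, 4 * j + 2, 4 * k + 1), (true, 4 * j, 4 * k + 3)]
    else [(true, 4 * j, 4 * k + 1)]

/-- The program of the wire `v` of the circuit `C` with `m` gates and input `x`; the first band of the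
wire `u` has the number `2 (4 m - 1 - u)`. -/
def wire (m : ℕ) (C : ℕ → Gate) (x : ℕ → Bool) (v : ℕ) : Prog :=
  ((hooks m x (decide (v % 4 < 2)) (C (v / 4))).map fun e =>
    hook e.1 (2 * (4 * m - 1 - max e.2.1 e.2.2))
      (2 * (max e.2.1 e.2.2 - min e.2.1 e.2.2) - 1)).flatten

/-- The knot diagram of the circuit `C` with `m` gates and input `x`. -/
def knot (m : ℕ) (C : ℕ → Gate) (x : ℕ → Bool) : Word :=
  dia ((List.range (4 * m)).map (wire m C x))

/-- The shadow of a diagram: the over/under information is forgotten. -/
def shadow (w : Word) : Word := w.map fun e => (match e.1 with
  | .cup => Kind.cup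
  | .cap => Kind.cap
  | .X _ => Kind.X true, e.2)

/-- Let `C` be a circuit with `m ≥ 1` gates.  For every input `x` the word `knot m C x` is a knot diagram
with at most `1536 m²` crossings; it is a diagram of the unknot iff the last gate has the value `true`, and
iff it can be changed to the round circle by planar isotopies and removals of bigons only.  These diagrams
have the same shadow for all inputs, and every piece of the word depends on at most one input bit. -/
theorem result (m : ℕ) (hm : 0 < m) (C : ℕ → Gate) (hC : IsCircuit m C) :
    (∀ x : ℕ → Bool,
      IsKnot (knot m C x) ∧
      crossings (knot m C x) ≤ 1536 * m ^ 2 ∧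
      (Unknot (knot m C x) ↔ val C x (m - 1) = true) ∧
      (BigonReducible (knot m C x) ↔ val C x (m - 1) = true)) ∧
    (∀ x y : ℕ → Bool, shadow (knot m C x) = shadow (knot m C y)) ∧
    (∀ i : ℕ, ∃ l : ℕ, ∀ x y : ℕ → Bool, x l = y l → (knot m C x)[i]? = (knot m C y)[i]?) := by
  refine ⟨fun x => ⟨knot2_isKnot m C hC x, knot2_crossings m C hC x, knot2_main m hm C hC x⟩, ?_, ?_⟩
  · exact fun x y => knot2_shadow m C x y
  · exact (knot2_prj m C).2

end Pool.Agent.Results.MP_5a63b6_lc.CircuitValueToUnknot
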