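import Pool.Agent.Helper7.LK.LIFT
import Pool.Agent.Helper9.LK.IPL
import Pool.Agent.Helper78.LK.IRD
import Pool.Agent.Helper33.LK.INI
import Pool.Agent.Helper75.LK.TQ
import Pool.Agent.Helper44.LK.XRC
import Pool.Agent.Helper10.LK.PWR
import Pool.Agent.Helper63.LK.KNT
import Pool.Agent.Helper51.LK.CNT
import Pool.Agent.Helper89.LK.CLS
import Pool.Agent.Helper13.LK.GOD
import Pool.Agent.Helper15.LK.INVR
import Pool.Agent.Helper81.LK.APP
import Pool.Agent.Helper67.LK.FAR
import Pool.Agent.Helper45.LK.CRO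
import Pool.Agent.Helper71.LK.BIC
import Pool.Agent.Helper13.LK.REL
import Pool.Agent.Helper12.LK.CUV
import Pool.Agent.Helper46.LK.UNT
import Pool.Agent.Helper31.LK.TWR
import Pool.Agent.Helper14.LK.LOW

/-!
# Unknot diagrams which no rewriting of small tangles simplifies

For every `k` the diagram `w0 k` (two cups, twists of `4 k`, `2 k`, `2 k`, `4 k + 1` crossings, two caps) is a
diagram of the unknot with `12 k + 1` crossings.  No diagram with fewer crossings can be obtained from it by
planar isotopies and by replacing tangles by equivalent tangles if the replaced tangles have together at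
most `k` crossings.

Diagrams, planar isotopies and Reidemeister moves are defined in `Pool/Agent/Helper50/KP/Defs.lean`; `w0`,
equivalence of tangles `Teq` and the relation `Local` in the first part of
`Pool/Agent/Helper78/LK/Defs.lean` (the other definitions there are used only in the proof).
-/

set_option autoImplicit false

namespace Pool.Agent.Results.MP_5a63b6_lc.SmallTanglesDoNotUntie

open Pool.Agent.Helper50.KP Pool.Agent.Helper78.LK

/-- `w0 k` is a knot diagram of the unknot with `12 k + 1` crossings, and every diagram `w'` that is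
obtained from it by planar isotopies and replacements of tangles with together at most `k` crossings by
equivalent tangles has at least `12 k + 1` crossings. -/
theorem result (k : ℕ) :
    IsKnot (w0 k) ∧ Unknot (w0 k) ∧ crossings (w0 k) = 12 * k + 1 ∧
      ∀ (j : ℕ) (w' : Word), j ≤ k → Local j (w0 k) w' → 12 * k + 1 ≤ crossings w' := by
  have hTQ : Pool.Agent.Helper78.LK.TQ := Pool.Agent.Helper75.LK.gTQ
  have hAPP : Pool.Agent.Helper78.LK.APP := Pool.Agent.Helper81.LK.gAPP
  have hFAR : Pool.Agent.Helper78.LK.FAR := Pool.Agent.Helper67.LK.gFAR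
  have hGOD : Pool.Agent.Helper78.LK.GOD := Pool.Agent.Helper13.LK.gGOD Pool.Agent.Helper89.LK.gCLS hFAR
  have hINI : Pool.Agent.Helper78.LK.INI := Pool.Agent.Helper33.LK.gINI hAPP hGOD (Pool.Agent.Helper45.LK.gCRO hGOD)
    (Pool.Agent.Helper31.LK.gTWR hAPP)
  have hKNT : Pool.Agent.Helper78.LK.KNT := Pool.Agent.Helper63.LK.gKNT
  have hINVR : Pool.Agent.Helper78.LK.INVR := Pool.Agent.Helper15.LK.gINVR hAPP Pool.Agent.Helper9.LK.gIPL gIRD
  have hLOW : Pool.Agent.Helper78.LK.LOW := Pool.Agent.Helper14.LK.gLOW hTQ (Pool.Agent.Helper7.LK.gLIFT hTQ) hINVR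
    Pool.Agent.Helper51.LK.gCNT hINI hKNT
  have hBIC : Pool.Agent.Helper78.LK.BIC := Pool.Agent.Helper71.LK.gBIC hTQ
  have hCUV : Pool.Agent.Helper78.LK.CUV := Pool.Agent.Helper12.LK.gCUV hTQ
  have hXRC : Pool.Agent.Helper78.LK.XRC := Pool.Agent.Helper44.LK.gXRC hTQ hBIC (Pool.Agent.Helper13.LK.gREL hTQ) hCUV
  have hUNT : Pool.Agent.Helper78.LK.UNT := Pool.Agent.Helper46.LK.gUNT hTQ hCUV hXRC (Pool.Agent.Helper10.LK.gPWR hTQ hBIC) hKNT
  exact ⟨(hKNT k).2.1, hUNT k, (hKNT k).2.2, fun j w' hj h => hLOW k j w' hj h⟩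

end Pool.Agent.Results.MP_5a63b6_lc.SmallTanglesDoNotUntie
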